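import Pool.Agent.P.MP_e86632_nt.Cl.Link

/-! The function `f*` as a minimum, over the sets of primes, of an explicit series. -/

namespace Pool.Agent.Results.MP_e86632_nt.Closed

open Pool.Agent.P.MP_e86632_nt

/-- `f* x` is the minimum over `J` of the supremum over `l ≥ 0` of `1 + l x - V J l`; the series
`V` converges; finite and cofinite `J` already give `f*` up to an explicit error. -/
theorem result :
    (∀ x : ℝ, 0 < x → x < 1 →
      IsLeast {y : ℝ | ∃ J : Set ℕ, ∀ l : ℝ, 0 ≤ l → 1 + l * x - Cl.V J l ≤ y} (fstar x)) ∧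
    (∀ (J : Set ℕ) (l : ℝ), 0 ≤ l → Summable (Cl.term J l)) ∧
    (∀ (x ε : ℝ) (n : ℕ), 0 < x → x < 1 → 0 < ε → 1 ≤ ε ^ 2 * primorial n →
      ∃ J : Set ℕ, (J ⊆ Set.Iic n ∨ (J)ᶜ ⊆ Set.Iic n) ∧
        ∀ l : ℝ, 0 ≤ l → 1 + l * (x - ε) - Cl.V J l ≤ fstar x + ε) :=
  ⟨fun _ => Cl.formula, fun J _ => Cl.term_summable J,
    fun _ _ n h0 h1 h2 => Cl.truncation h0 h1 h2 n⟩

end Pool.Agent.Results.MP_e86632_nt.Closed
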