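import Pool.Agent.P.MP_e86632_nt.Explicit

/-! An explicit lower bound for `f*`. -/

namespace Pool.Agent.Results.MP_e86632_nt.Hyperbola

open Pool.Agent.P.MP_e86632_nt

theorem result (x : ℝ) (hx0 : 0 < x) (hx1 : x < 1) : 6 * x / (1 + 5 * x) ≤ fstar x :=
  fstar_hyp hx0.le hx1

end Pool.Agent.Results.MP_e86632_nt.Hyperbola
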