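import Pool.Agent.P.MP_e86632_nt.Explicit

/-! The map `x ↦ 1 - f*(x)` is a decreasing involution of `(0, 1)`. -/

namespace Pool.Agent.Results.MP_e86632_nt.Symmetry

open Pool.Agent.P.MP_e86632_nt

theorem result :
    Set.MapsTo (fun x => 1 - fstar x) (Set.Ioo 0 1) (Set.Ioo 0 1) ∧
      StrictAntiOn (fun x => 1 - fstar x) (Set.Ioo 0 1) ∧
      ∀ x ∈ Set.Ioo (0 : ℝ) 1, fstar (1 - fstar x) = 1 - x := by
  refine ⟨fun x hx => ?_, fun x hx y hy h => sub_lt_sub_left (fstar_strictMono hx hy h) 1,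
    fun x hx => fstar_fe hx.1 hx.2⟩
  simp only [fstar_eq hx.1.le hx.2, sub_sub_cancel]
  refine ⟨(G_nonneg hx.2.le).lt_of_ne fun k => ?_, by linarith [G_le_sub hx.2.le, hx.1]⟩
  have h1 := G_G hx.1 hx.2
  have h2 := le_G (x := 0) one_pos (α := fun _ => 0) (γ := fun _ => 1)
    ⟨fun _ => rfl, fun _ => rfl, fun _ => le_rfl, fun _ => zero_le_one, fun _ _ _ => by simp,
      fun _ _ _ => Or.inl rfl⟩ (mean_const one_pos 0).ge
  rw [mean_const one_pos] at h2
  rw [← k] at h1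
  linarith [hx.2]

end Pool.Agent.Results.MP_e86632_nt.Symmetry
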