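import Pool.Agent.P.MP_e86632_nt.Cl.Link
import Pool.Agent.P.MP_e86632_nt.Cl.Prim

/-! The function `f*` at the reciprocals of the primorials. -/

namespace Pool.Agent.Results.MP_e86632_nt.Values

open Pool.Agent.P.MP_e86632_nt Filter Topology

/-- At `x = 1 / P`, `P` the product of the primes up to `n ≥ 5`, the value of `f*` is
`(φ P + π n) / P`, and the graph has a cusp there: left derivative `π n`, right slope `+∞`. -/
theorem result (n : ℕ) (hn : 5 ≤ n) :
    fstar (1 / primorial n) = ((primorial n).totient + n.primeCounting) / primorial n ∧
    HasDerivWithinAt fstar n.primeCounting (Set.Iic (1 / primorial n)) (1 / primorial n) ∧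
    Tendsto (slope fstar (1 / primorial n)) (𝓝[>] (1 / primorial n)) atTop := by
  rw [Cl.primorial_real, Cl.totient_primorial]
  refine Cl.cusp (le_trans ?_ (Nat.monotone_primeCounting hn))
  decide +kernel

end Pool.Agent.Results.MP_e86632_nt.Values
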